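import Pool.Agent.helper72.UP.Spec

/-!
Row ASY of project UP (MP_7e34bc_co, Q2): the range `k ≥ n/2 + 6 sqrt (n log n)`.
-/

set_option autoImplicit false

namespace Pool.Agent.helper72.UP

open Finset

theorem ASY_term (h2 : VAN_stmt) (n i : ℕ) (hi : 1 ≤ i) : uu n i ≤ n.choose (n / 2) := by
  rcases Nat.lt_or_ge (n / 2) i with h | h
  · have h0 : uu n i = 0 := by
      unfold uu
      rw [Nat.choose_eq_zero_of_lt h, mul_zero]
    rw [h0]
    exact Nat.zero_le _
  · have h3 := h2 n 0 (Nat.zero_le n)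
    have h4 : uu n i ≤ TT n 0 := by
      unfold TT
      exact single_le_sum (f := fun j => uu n j) (fun _ _ => Nat.zero_le _)
        (mem_Ioc.2 ⟨by omega, h⟩)
    omega

theorem ASY (h1 : DEC_stmt) (h2 : VAN_stmt) : ASY_stmt := by
  intro n k hn hkn hk
  rcases Nat.lt_or_ge n 2 with hn2 | hn2
  · have h0 : TT n k = 0 := by
      unfold TT
      rw [Finset.Ioc_eq_empty_of_le (by omega)]
      rfl
    rw [h0, mul_zero]
    exact Nat.zero_le _
  · have hnR : (2 : ℝ) ≤ n := by exact_mod_cast hn2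
    have hnpos : (0 : ℝ) < n := by linarith
    obtain ⟨L, hL⟩ : ∃ L, L = Real.sqrt (n * Real.log n) := ⟨_, rfl⟩
    rw [← hL] at hk
    have hlog : Real.log 2 ≤ Real.log n := Real.log_le_log (by norm_num) hnR
    have hlog2 : (0.6931471803 : ℝ) < Real.log 2 := Real.log_two_gt_d9
    have hnl : 1 ≤ (n : ℝ) * Real.log n := by nlinarith
    have hL2 : L * L = n * Real.log n := by
      rw [hL]
      exact Real.mul_self_sqrt (by linarith)
    have hL1 : 1 ≤ L := by
      rw [hL]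
      exact Real.one_le_sqrt.2 hnl
    have hu0 : uu n ((n + 3) / 4) ≤ n.choose (n / 2) := ASY_term h2 n _ (by omega)
    have hu0R : (uu n ((n + 3) / 4) : ℝ) ≤ (n.choose (n / 2) : ℝ) := by exact_mod_cast hu0
    have hexp : Real.exp (-(2 * Real.log n)) = 1 / (n : ℝ) ^ 2 := by
      rw [Real.exp_neg, two_mul, Real.exp_add, Real.exp_log hnpos]
      field_simp
    have key : ∀ i ∈ Ioc (k / 2) (n / 2),
        (uu n i : ℝ) ≤ (n.choose (n / 2) : ℝ) * (1 / (n : ℝ) ^ 2) := by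
      intro i hi
      rw [mem_Ioc] at hi
      have hi1 : k + 1 ≤ 2 * i := by omega
      have hi2 : (k : ℝ) + 1 ≤ 2 * i := by exact_mod_cast hi1
      have h40 : 4 * ((n + 3) / 4) ≤ n + 3 := by omega
      have h40R : 4 * (((n + 3) / 4 : ℕ) : ℝ) ≤ (n : ℝ) + 3 := by exact_mod_cast h40
      have hii : (n + 3) / 4 ≤ i := by
        have h5 : (((n + 3) / 4 : ℕ) : ℝ) ≤ (i : ℝ) := by linarith
        exact_mod_cast h5
      obtain ⟨d, hd⟩ : ∃ d, i = (n + 3) / 4 + d := ⟨i - (n + 3) / 4, by omega⟩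
      have hdR : (i : ℝ) = (((n + 3) / 4 : ℕ) : ℝ) + (d : ℝ) := by
        rw [hd]
        push_cast
        ring
      have hd1 : 3 * L - 1 / 4 ≤ (d : ℝ) := by linarith
      have h3 := h1 n ((n + 3) / 4) d (by omega) (by omega) hn
      rw [← hd] at h3
      have h6 : 2 * (L * L) ≤ 4 * (d : ℝ) * ((d : ℝ) - 1) := by
        have h7 : 0 ≤ ((d : ℝ) - (3 * L - 1 / 4)) := by linarith
        have h8 : 0 ≤ ((d : ℝ) - 1) + (3 * L - 1 / 4) := by linarith
        nlinarith [mul_nonneg h7 h8]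
      have h9 : Real.exp (-(4 * (d : ℝ) * ((d : ℝ) - 1) / n)) ≤ Real.exp (-(2 * Real.log n)) := by
        apply Real.exp_le_exp.2
        apply neg_le_neg
        rw [le_div_iff₀ hnpos]
        rw [hL2] at h6
        linarith
      rw [hexp] at h9
      calc (uu n i : ℝ) ≤ uu n ((n + 3) / 4) * Real.exp (-(4 * (d : ℝ) * ((d : ℝ) - 1) / n)) := h3
        _ ≤ uu n ((n + 3) / 4) * (1 / (n : ℝ) ^ 2) :=
          mul_le_mul_of_nonneg_left h9 (Nat.cast_nonneg _)
        _ ≤ (n.choose (n / 2) : ℝ) * (1 / (n : ℝ) ^ 2) :=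
          mul_le_mul_of_nonneg_right hu0R (by positivity)
    have hsum : (TT n k : ℝ) ≤ n * ((n.choose (n / 2) : ℝ) * (1 / (n : ℝ) ^ 2)) := by
      unfold TT
      rw [Nat.cast_sum]
      calc ∑ i ∈ Ioc (k / 2) (n / 2), (uu n i : ℝ)
          ≤ ∑ i ∈ Ioc (k / 2) (n / 2), (n.choose (n / 2) : ℝ) * (1 / (n : ℝ) ^ 2) :=
            sum_le_sum key
        _ = ((n / 2 - k / 2 : ℕ) : ℝ) * ((n.choose (n / 2) : ℝ) * (1 / (n : ℝ) ^ 2)) := by
            rw [sum_const, Nat.card_Ioc, nsmul_eq_mul]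
        _ ≤ n * ((n.choose (n / 2) : ℝ) * (1 / (n : ℝ) ^ 2)) := by
            apply mul_le_mul_of_nonneg_right
            · exact_mod_cast (by omega : n / 2 - k / 2 ≤ n)
            · positivity
    have hfin : ((n * TT n k : ℕ) : ℝ) ≤ ((n.choose (n / 2) : ℕ) : ℝ) := by
      rw [Nat.cast_mul]
      calc (n : ℝ) * (TT n k : ℝ) ≤ n * (n * ((n.choose (n / 2) : ℝ) * (1 / (n : ℝ) ^ 2))) :=
            mul_le_mul_of_nonneg_left hsum hnpos.le
        _ = (n.choose (n / 2) : ℝ) := by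
            field_simp
    exact_mod_cast hfin

end Pool.Agent.helper72.UP
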